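import Pool.Agent.Helper46.CU.Stmts

set_option autoImplicit false

namespace Pool.Agent.Helper46.CU

open Finset

/-- the trivial bound over a set of values of `a` -/
theorem blk_sum (C1 e : ℝ) (hC1 : 0 < C1) (he : 0 ≤ e)
    (h2 : ∀ a B : ℕ, 2 ≤ a → 2 ≤ B → ((parS a B).card : ℝ) ≤ C1 * ((a : ℝ) * B) ^ e)
    (A B : ℕ) (hB : 2 ≤ B) (hAB : A ≤ B) (S : Finset ℕ) (hS : ∀ a ∈ S, 2 ≤ a ∧ a ≤ A) :
    ((S.sigma (fun a => parS a B)).card : ℝ) ≤ S.card * (C1 * (B : ℝ) ^ (2 * e)) := by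
  rw [Finset.card_sigma]
  push_cast
  rw [← nsmul_eq_mul]
  apply Finset.sum_le_card_nsmul
  intro a ha
  obtain ⟨ha1, ha2⟩ := hS a ha
  refine le_trans (h2 a B ha1 hB) ?_
  apply mul_le_mul_of_nonneg_left _ hC1.le
  have hB0 : (0 : ℝ) ≤ B := Nat.cast_nonneg B
  have h1 : (a : ℝ) * B ≤ (B : ℝ) ^ (2 : ℝ) := by
    rw [show (2 : ℝ) = ((2 : ℕ) : ℝ) by norm_num, Real.rpow_natCast, sq]
    apply mul_le_mul_of_nonneg_right _ hB0
    exact_mod_cast le_trans ha2 hAB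
  rw [Real.rpow_mul hB0]
  exact Real.rpow_le_rpow (by positivity) h1 he

theorem st_BLK (h1 : ST_LRG) (h2 : ST_PRT) (h3 : ST_RED) (h4 : ST_SML) : ST_BLK := by
  classical
  intro ε hε
  obtain ⟨C2, hC2, H1⟩ := h1 (ε / 3) (by positivity)
  obtain ⟨C1, hC1, H2⟩ := h2 (ε / 3) (by positivity)
  refine ⟨2 * C1 + 4 + C1 * C2, by positivity, ?_⟩
  intro A B hA hAB
  have hB : 2 ≤ B := le_trans hA hAB
  obtain ⟨α, hα⟩ : ∃ α : ℝ, α = (A : ℝ) := ⟨_, rfl⟩
  obtain ⟨β, hβ⟩ : ∃ β : ℝ, β = (B : ℝ) := ⟨_, rfl⟩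
  have hα2 : 2 ≤ α := by rw [hα]; exact_mod_cast hA
  have hαβ : α ≤ β := by rw [hα, hβ]; exact_mod_cast hAB
  have hα0 : 0 < α := by linarith
  have hβ0 : 0 < β := by linarith
  have hβ1 : 1 ≤ β := by linarith
  have hmt : mt A B = α ^ (2 / 3 : ℝ) + α ^ (1 / 6 : ℝ) * β ^ (1 / 2 : ℝ) := by
    rw [mt, hα, hβ]
  have hm1 : 0 < α ^ (2 / 3 : ℝ) := Real.rpow_pos_of_pos hα0 _
  have hm2 : 0 < α ^ (1 / 6 : ℝ) * β ^ (1 / 2 : ℝ) :=
    mul_pos (Real.rpow_pos_of_pos hα0 _) (Real.rpow_pos_of_pos hβ0 _)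
  have hmt0 : 0 < mt A B := by rw [hmt]; linarith
  have hBε1 : 1 ≤ β ^ ε := Real.one_le_rpow hβ1 hε.le
  have hB2 : β ^ (2 * (ε / 3)) ≤ β ^ ε := Real.rpow_le_rpow_of_exponent_le hβ1 (by linarith)
  have hp2 : 0 < β ^ (2 * (ε / 3)) := Real.rpow_pos_of_pos hβ0 _
  -- the map of a pair to the sigma type
  have hpar : ∀ p ∈ blkS A B, p.2 ∈ parS p.1 B ∧ 2 ≤ p.1 ∧ p.1 ≤ A := by
    intro p hp
    rw [blkS, Finset.mem_filter, Finset.mem_product, Finset.mem_Icc, Finset.mem_Icc] at hp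
    refine ⟨?_, hp.1.1.1, hp.1.1.2⟩
    rw [parS, Finset.mem_filter, Finset.mem_Icc]
    exact ⟨hp.1.2, hp.2.2.2⟩
  have hinj : Function.Injective (fun p : ℕ × ℕ => (⟨p.1, p.2⟩ : Σ _ : ℕ, ℕ)) := by
    intro p q hpq
    simp only [Sigma.mk.injEq, heq_eq_eq] at hpq
    exact Prod.ext hpq.1 hpq.2
  by_cases hc : α ^ 2 < 4 * β ∨ α ^ (5 / 3 : ℝ) ≤ β
  · -- the trivial bound
    have hcard : ((blkS A B).card : ℝ) ≤ α * (C1 * β ^ (2 * (ε / 3))) := by
      have e1 : ((blkS A B).card : ℝ) ≤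
          (((Icc 2 A).sigma (fun a => parS a B)).card : ℝ) := by
        have : (blkS A B).card ≤ ((Icc 2 A).sigma (fun a => parS a B)).card := by
          apply Finset.card_le_card_of_injOn (fun p : ℕ × ℕ => (⟨p.1, p.2⟩ : Σ _ : ℕ, ℕ))
          · intro p hp
            obtain ⟨hp1, hp2, hp3⟩ := hpar p hp
            simp only [Finset.coe_sigma, Set.mem_sigma_iff, Finset.mem_coe, Finset.mem_Icc]
            exact ⟨⟨hp2, hp3⟩, hp1⟩
          · exact hinj.injOn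
        exact_mod_cast this
      have e2 := blk_sum C1 (ε / 3) hC1 (by positivity) H2 A B hB hAB (Icc 2 A)
        (fun a ha => by rw [Finset.mem_Icc] at ha; exact ha)
      have e3 : ((Icc 2 A).card : ℝ) ≤ α := by
        rw [Nat.card_Icc, hα]
        exact_mod_cast (by omega : A + 1 - 2 ≤ A)
      rw [← hβ] at e2
      refine le_trans e1 (le_trans e2 ?_)
      exact mul_le_mul_of_nonneg_right e3 (by positivity)
    have hαmt : α ≤ 2 * mt A B := by
      rw [hmt]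
      rcases hc with hc | hc
      · have h5 : α / 2 ≤ β ^ (1 / 2 : ℝ) := by
          rw [← Real.sqrt_eq_rpow]
          apply Real.le_sqrt_of_sq_le
          nlinarith
        have h6 : 1 ≤ α ^ (1 / 6 : ℝ) := Real.one_le_rpow (by linarith) (by norm_num)
        have h7 : 1 * (α / 2) ≤ α ^ (1 / 6 : ℝ) * β ^ (1 / 2 : ℝ) :=
          mul_le_mul h6 h5 (by positivity) (by positivity)
        linarith
      · have h5 : α ^ (5 / 6 : ℝ) ≤ β ^ (1 / 2 : ℝ) := by
          have : (α ^ (5 / 3 : ℝ)) ^ (1 / 2 : ℝ) ≤ β ^ (1 / 2 : ℝ) :=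
            Real.rpow_le_rpow (by positivity) hc (by norm_num)
          rw [← Real.rpow_mul hα0.le] at this
          norm_num at this
          norm_num
          exact this
        have h6 : α = α ^ (1 / 6 : ℝ) * α ^ (5 / 6 : ℝ) := by
          rw [← Real.rpow_add hα0]
          norm_num
        have h7 : α ^ (1 / 6 : ℝ) * α ^ (5 / 6 : ℝ) ≤ α ^ (1 / 6 : ℝ) * β ^ (1 / 2 : ℝ) :=
          mul_le_mul_of_nonneg_left h5 (by positivity)
        rw [← h6] at h7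
        linarith
    rw [← hβ]
    calc ((blkS A B).card : ℝ) ≤ α * (C1 * β ^ (2 * (ε / 3))) := hcard
      _ ≤ (2 * mt A B) * (C1 * β ^ ε) := by
          apply mul_le_mul hαmt _ (by positivity) (by positivity)
          exact mul_le_mul_of_nonneg_left hB2 hC1.le
      _ = (2 * C1) * (mt A B * β ^ ε) := by ring
      _ ≤ (2 * C1 + 4 + C1 * C2) * (mt A B * β ^ ε) := by
          apply mul_le_mul_of_nonneg_right _ (by positivity)
          have : 0 < C1 * C2 := by positivity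
          linarith
      _ = _ := by ring
  · push Not at hc
    obtain ⟨hc1, hc2⟩ := hc
    obtain ⟨Y, hY⟩ : ∃ Y : ℝ, Y = α ^ (5 / 6 : ℝ) * β ^ (-(1 / 2) : ℝ) := ⟨_, rfl⟩
    have hY0 : 0 < Y := by rw [hY]; positivity
    have hY1 : 1 ≤ Y := by
      rw [hY, Real.rpow_neg hβ0.le, ← div_eq_mul_inv, one_le_div (by positivity)]
      have : β ^ (1 / 2 : ℝ) ≤ (α ^ (5 / 3 : ℝ)) ^ (1 / 2 : ℝ) :=
        Real.rpow_le_rpow hβ0.le hc2.le (by norm_num)
      rw [← Real.rpow_mul hα0.le] at this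
      norm_num at this
      norm_num
      exact this
    have h4' : 4 * B ≤ A ^ 2 := by
      have : (4 : ℝ) * B ≤ (A : ℝ) ^ 2 := by rw [← hα, ← hβ]; exact hc1
      exact_mod_cast this
    have hS := h4 A B hA hAB h4' Y hY1
    have hL := H1 A (by omega) Y hY0
    rw [← hα, ← hβ] at hS
    rw [← hα] at hL
    have hcov : ((blkS A B).card : ℝ) ≤ ((smlS A B Y).card : ℝ) +
        (((lrgS A Y).sigma (fun a => parS a B)).card : ℝ) := by
      have hsub : (blkS A B) ⊆ (smlS A B Y) ∪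
          (blkS A B).filter (fun p => p.1 ∈ lrgS A Y) := by
        intro p hp
        have hp' := hp
        rw [blkS, Finset.mem_filter, Finset.mem_product, Finset.mem_Icc, Finset.mem_Icc] at hp
        obtain ⟨⟨⟨hpa, hpA⟩, hpb⟩, hp2A, hp12, hsq⟩ := hp
        obtain ⟨y, z, m, hy1, hyz, he1, he2⟩ := h3 p.1 p.2 hpa hp12 hsq
        rw [Finset.mem_union]
        by_cases hyY : (y : ℝ) < Y
        · left
          rw [smlS, Finset.mem_filter, Finset.mem_product, Finset.mem_Icc, Finset.mem_Icc]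
          exact ⟨⟨⟨hpa, hpA⟩, hpb⟩, hp2A, hp12, y, z, m, hy1, hyz, hyY, he1, he2⟩
        · right
          rw [Finset.mem_filter]
          refine ⟨hp', ?_⟩
          rw [lrgS, Finset.mem_filter, Finset.mem_Icc]
          refine ⟨⟨hpa, hpA⟩, y, not_lt.mp hyY, ?_⟩
          rw [he1]
          exact Dvd.intro_left m rfl
      have h5 : (blkS A B).card ≤ (smlS A B Y).card +
          ((blkS A B).filter (fun p => p.1 ∈ lrgS A Y)).card :=
        le_trans (Finset.card_le_card hsub) (Finset.card_union_le _ _)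
      have h6 : ((blkS A B).filter (fun p => p.1 ∈ lrgS A Y)).card ≤
          ((lrgS A Y).sigma (fun a => parS a B)).card := by
        apply Finset.card_le_card_of_injOn (fun p : ℕ × ℕ => (⟨p.1, p.2⟩ : Σ _ : ℕ, ℕ))
        · intro p hp
          rw [Finset.mem_coe, Finset.mem_filter] at hp
          obtain ⟨hp1, hp2, hp3⟩ := hpar p hp.1
          simp only [Finset.coe_sigma, Set.mem_sigma_iff, Finset.mem_coe]
          exact ⟨hp.2, hp1⟩
        · exact hinj.injOn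
      exact_mod_cast le_trans h5 (Nat.add_le_add_left h6 _)
    have e2 := blk_sum C1 (ε / 3) hC1 (by positivity) H2 A B hB hAB (lrgS A Y)
      (fun a ha => by
        rw [lrgS, Finset.mem_filter, Finset.mem_Icc] at ha
        exact ha.1)
    rw [← hβ] at e2
    -- main terms
    have hsm : 4 * Y ^ 2 * (β / α) ^ (3 / 2 : ℝ) = 4 * (α ^ (1 / 6 : ℝ) * β ^ (1 / 2 : ℝ)) := by
      have e1 : Y ^ 2 = α ^ (5 / 3 : ℝ) * β ^ (-1 : ℝ) := by
        rw [hY, mul_pow, ← Real.rpow_natCast (α ^ (5 / 6 : ℝ)), ← Real.rpow_natCast (β ^ (-(1 / 2) : ℝ)),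
          ← Real.rpow_mul hα0.le, ← Real.rpow_mul hβ0.le]
        norm_num
      have e3 : (β / α) ^ (3 / 2 : ℝ) = β ^ (3 / 2 : ℝ) * α ^ (-(3 / 2) : ℝ) := by
        rw [Real.div_rpow hβ0.le hα0.le, Real.rpow_neg hα0.le, div_eq_mul_inv]
      rw [e1, e3]
      have e4 : α ^ (5 / 3 : ℝ) * α ^ (-(3 / 2) : ℝ) = α ^ (1 / 6 : ℝ) := by
        rw [← Real.rpow_add hα0]
        norm_num
      have e5 : β ^ (-1 : ℝ) * β ^ (3 / 2 : ℝ) = β ^ (1 / 2 : ℝ) := by
        rw [← Real.rpow_add hβ0]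
        norm_num
      calc 4 * (α ^ (5 / 3 : ℝ) * β ^ (-1 : ℝ)) * (β ^ (3 / 2 : ℝ) * α ^ (-(3 / 2) : ℝ)) =
          4 * ((α ^ (5 / 3 : ℝ) * α ^ (-(3 / 2) : ℝ)) * (β ^ (-1 : ℝ) * β ^ (3 / 2 : ℝ))) := by ring
        _ = _ := by rw [e4, e5]
    have hlg : α / Y = α ^ (1 / 6 : ℝ) * β ^ (1 / 2 : ℝ) := by
      rw [div_eq_iff hY0.ne', hY]
      have e4 : α ^ (1 / 6 : ℝ) * α ^ (5 / 6 : ℝ) = α := by
        rw [← Real.rpow_add hα0]
        norm_num
      have e5 : β ^ (1 / 2 : ℝ) * β ^ (-(1 / 2) : ℝ) = 1 := by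
        rw [← Real.rpow_add hβ0]
        norm_num
      calc α = (α ^ (1 / 6 : ℝ) * α ^ (5 / 6 : ℝ)) * (β ^ (1 / 2 : ℝ) * β ^ (-(1 / 2) : ℝ)) := by
            rw [e4, e5, mul_one]
        _ = _ := by ring
    rw [hsm] at hS
    rw [hlg, add_comm, ← hmt] at hL
    have hS' : ((smlS A B Y).card : ℝ) ≤ 4 * mt A B := by
      refine le_trans hS ?_
      rw [hmt]; linarith
    have hαε : α ^ (ε / 3) ≤ β ^ (ε / 3) := Real.rpow_le_rpow hα0.le hαβ (by positivity)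
    have hL' : ((lrgS A Y).card : ℝ) ≤ C2 * β ^ (ε / 3) * mt A B := by
      refine le_trans hL ?_
      apply mul_le_mul_of_nonneg_right _ hmt0.le
      exact mul_le_mul_of_nonneg_left hαε hC2.le
    have hL2 : (((lrgS A Y).sigma (fun a => parS a B)).card : ℝ) ≤ C1 * C2 * mt A B * β ^ ε := by
      refine le_trans e2 ?_
      have h5 : ((lrgS A Y).card : ℝ) * (C1 * β ^ (2 * (ε / 3))) ≤
          C2 * β ^ (ε / 3) * mt A B * (C1 * β ^ (2 * (ε / 3))) :=
        mul_le_mul_of_nonneg_right hL' (by positivity)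
      refine le_trans h5 (le_of_eq ?_)
      have h6 : β ^ (ε / 3) * β ^ (2 * (ε / 3)) = β ^ ε := by
        rw [← Real.rpow_add hβ0]
        congr 1
        ring
      calc C2 * β ^ (ε / 3) * mt A B * (C1 * β ^ (2 * (ε / 3))) =
          C1 * C2 * mt A B * (β ^ (ε / 3) * β ^ (2 * (ε / 3))) := by ring
        _ = _ := by rw [h6]
    rw [← hβ]
    have h7 : 4 * mt A B ≤ 4 * mt A B * β ^ ε := by
      have : 4 * mt A B * 1 ≤ 4 * mt A B * β ^ ε :=
        mul_le_mul_of_nonneg_left hBε1 (by positivity)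
      linarith
    have h8 : 0 ≤ 2 * C1 * mt A B * β ^ ε := by positivity
    calc ((blkS A B).card : ℝ) ≤ 4 * mt A B * β ^ ε + C1 * C2 * mt A B * β ^ ε := by linarith
      _ ≤ (2 * C1 + 4 + C1 * C2) * mt A B * β ^ ε := by linarith

end Pool.Agent.Helper46.CU
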